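import Pool.Agent.Helper91K1.WS.Final
import Pool.Agent.Helper91K1.WS.K

/-!
# Waring's problem with shifts for almost all shifts: `k + 1` terms for almost all reals

In Waring's problem with shifts the `k`-th powers are replaced by `(x + θ_i) ^ k`, one real shift `θ_i` for each
variable. Let `1 ≤ j ≤ k`. For almost all shifts `θ ∈ ℝ^{k+j}` all positive reals `τ ≤ T`, except for a set of
measure at most `T^{1 - j/k + ε}`, are within `τ ^ (-c)` of a sum `(x_1 + θ_1) ^ k + ⋯ + (x_{k+j} + θ_{k+j}) ^ k`.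

In particular `k + 1` terms suffice for almost all reals (the exceptional set up to `T` has measure at most
`T^{1 - 1/k + ε}`), and with `2 k` terms, one less than in the question, its measure is at most `T^ε`.
The number `k + 1` is best possible: for *all* shifts `θ ∈ ℝ^k` at least one third of the reals up to `T` are at
distance at least `1/4` from all sums of `k` terms.

The pieces were written by helper28, helper37, helper59, helper61, helper87, helper91, helper95 and helper96.
-/

set_option autoImplicit false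

namespace Pool.Agent.Results.MP_efcac8_nt.AlmostAllReals

open MeasureTheory Filter

/-- Let `k ≥ 2`. For `1 ≤ j ≤ k`, `ε > 0` and almost all shifts in `ℝ^{k+j}` the reals in `(0, T]` that are not
within `τ ^ (-c)` of a sum of `k + j` shifted `k`-th powers have measure at most `T^{1 - j/k + ε}` for large `T`;
and `k` terms do not suffice for almost all reals, for any shifts. -/
theorem result (k : ℕ) (hk : 2 ≤ k) :
    (∀ j : ℕ, 1 ≤ j → j ≤ k → ∀ ε : ℝ, 0 < ε → ∃ c : ℝ, 0 < c ∧ ∀ᵐ θ : Fin (k + j) → ℝ,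
      ∀ᶠ T : ℝ in atTop, volume {τ : ℝ | 0 < τ ∧ τ ≤ T ∧ ∀ x : Fin (k + j) → ℕ,
        τ ^ (-c) ≤ |∑ i, ((x i : ℝ) + θ i) ^ k - τ|} ≤
          ENNReal.ofReal (T ^ (1 - (j : ℝ) / k + ε))) ∧
    (∀ θ : Fin k → ℝ, ∀ᶠ T : ℝ in atTop, ENNReal.ofReal (T / 3) ≤
      volume {τ : ℝ | 0 < τ ∧ τ ≤ T ∧ ∀ x : Fin k → ℕ,
        1 / 4 ≤ |∑ i, ((x i : ℝ) + θ i) ^ k - τ|}) :=
  ⟨fun j hj hjk ε hε => Pool.Agent.Helper91K1.WS.exceptional k j hk hj hjk ε hε,
    fun θ => Pool.Agent.Helper91K1.WS.taskK k hk θ⟩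

end Pool.Agent.Results.MP_efcac8_nt.AlmostAllReals
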