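import Pool.Agent.Helper11W.Fin
import Pool.Agent.Helper11W.Ene

/-!
# MP_efcac8_nt: `2k + 1` terms suffice in Waring's problem for almost all coefficients

Notation: `⌊a * y ^ k⌋` is the integer part of the real number `a y^k`.
-/

set_option autoImplicit false

namespace Pool.Agent.Results.MP_efcac8_nt.GenericCoefficients

/-- **Theorem.** Let `k ≥ 2` and `1 ≤ u ≤ min(k, 3)`. For almost every `a` in `ℝ^(2k+1-u)` (Lebesgue measure) with
positive coordinates, every large natural number `n` is a sum of `2k + 1` terms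
`n = x_1^k + ... + x_u^k + ⌊a_1 y_1^k⌋ + ... + ⌊a_{2k+1-u} y_{2k+1-u}^k⌋`
with positive integers `x_i`, `y_i`. -/
theorem result (k u : ℕ) (hk : 2 ≤ k) (hu : 1 ≤ u) (huk : u ≤ k) (hu3 : u ≤ 3) :
    ∀ᵐ a : Fin (2 * k + 1 - u) → ℝ, (∀ i, 0 < a i) →
      ∃ N : ℕ, ∀ n : ℕ, N ≤ n →
        ∃ (x : Fin u → ℕ) (y : Fin (2 * k + 1 - u) → ℕ), (∀ i, 0 < x i) ∧ (∀ i, 0 < y i) ∧
          (n : ℤ) = ∑ i, (x i : ℤ) ^ k + ∑ i, ⌊a i * (y i : ℝ) ^ k⌋ := by
  filter_upwards [Pool.Agent.Helper11W.main_of Pool.Agent.Helper11W.energy k u hk hu hu3 huk] with a ha hpos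
  obtain ⟨N, hN⟩ := ha hpos
  refine ⟨N, fun n hn => ?_⟩
  obtain ⟨x, hx, y, hy, h⟩ := hN n hn
  exact ⟨x, y, hx, hy, h⟩

end Pool.Agent.Results.MP_efcac8_nt.GenericCoefficients
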