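import Pool.Agent.Helper65.WP.Exc

set_option autoImplicit false

/-! # Hardy–Littlewood's bound for randomly perturbed `k`-th powers

A sparse set of the `k`-th powers `x ^ k` is moved by random multiples of `M` of size at most
`M x ^ (k / 5)`. Almost surely, a large number is a sum of exactly `2 k + 1` of the resulting numbers
if and only if it is a sum of `2 k + 1` `k`-th powers modulo `M`. -/

namespace Pool.Agent.Results.MP_efcac8_nt.PerturbedPowers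

open MeasureTheory ProbabilityTheory Filter
open scoped ENNReal

/-- `n` is a sum of exactly `2 k + 1` numbers `x ^ k + M * v x` with positive integers `x`. -/
def Represented (k M : ℕ) (v : ℕ → ℕ) (n : ℕ) : Prop :=
  ∃ x : Fin (2 * k + 1) → ℕ, (∀ i, 0 < x i) ∧ n = ∑ i, (x i ^ k + M * v (x i))

theorem result {k M : ℕ} (hk : 2 ≤ k) (hM : 0 < M) {X : Set ℕ}
    (hX : ∀ r : ℕ, ∀ᶠ N : ℕ in atTop, (N : ℝ) ^ (9 / 10 : ℝ) ≤
      ({x : ℕ | N < x ∧ x ≤ 2 * N ∧ x ∈ X ∧ x ≡ r [MOD M]}.ncard : ℝ))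
    {Ω : Type*} [MeasurableSpace Ω] {μ : Measure Ω} [IsProbabilityMeasure μ]
    {ξ : ℕ → Ω → ℕ} (hm : ∀ x, Measurable (ξ x)) (hi : iIndepFun ξ μ)
    (hle : ∀ x ω, ξ x ω ≤ ⌊(x : ℝ) ^ ((k : ℝ) / 5)⌋₊)
    (hu : ∀ x ∈ X, ∀ v ≤ ⌊(x : ℝ) ^ ((k : ℝ) / 5)⌋₊,
      μ {ω | ξ x ω = v} = ((⌊(x : ℝ) ^ ((k : ℝ) / 5)⌋₊ + 1 : ℕ) : ℝ≥0∞)⁻¹) :
    (∀ᵐ ω ∂μ, ∀ᶠ n : ℕ in atTop, Represented k M (fun x => ξ x ω) n ↔
      ∃ y : Fin (2 * k + 1) → ℕ, n ≡ ∑ i, y i ^ k [MOD M]) ∧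
    ((¬ ∃ a : ℕ, 2 ≤ a ∧ k = 2 ^ a) →
      ∀ᵐ ω ∂μ, ∀ᶠ n : ℕ in atTop, Represented k M (fun x => ξ x ω) n) ∧
    ((∃ a : ℕ, 2 ≤ a ∧ k = 2 ^ a) → 4 * k ∣ M →
      ∀ ω, ∃ᶠ n : ℕ in atTop, ¬ Represented k M (fun x => ξ x ω) n) := by
  classical
  have hX' : ∀ r : ℕ, ∀ᶠ N : ℕ in atTop, (N : ℝ) ^ (9 / 10 : ℝ) ≤
      (((Finset.Ioc N (2 * N)).filter fun x => x ∈ X ∧ x ≡ r [MOD M]).card : ℝ) := by
    intro r
    filter_upwards [hX r] with N hN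
    have h : {x : ℕ | N < x ∧ x ≤ 2 * N ∧ x ∈ X ∧ x ≡ r [MOD M]} =
        (((Finset.Ioc N (2 * N)).filter fun x => x ∈ X ∧ x ≡ r [MOD M] : Finset ℕ) : Set ℕ) := by
      ext x
      simp only [Set.mem_ofPred_eq, Finset.coe_filter, Finset.mem_Ioc]
      tauto
    rw [h, Set.ncard_coe_finset] at hN
    exact hN
  have h1 := Helper65.WP.main hk hM hX' hm hi hle hu
  refine ⟨h1, ?_, ?_⟩
  · intro hk4
    filter_upwards [h1] with ω hω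
    filter_upwards [hω] with n hn
    exact hn.2 (Helper65.WP.loc_all (by omega) hk4 hM n)
  · rintro ⟨a, ha, rfl⟩ h4 ω
    exact (Helper65.WP.exceptional ha h4 (fun x => ξ x ω)).mono fun n hn hr =>
      hn ⟨hr.choose, hr.choose_spec.2⟩

end Pool.Agent.Results.MP_efcac8_nt.PerturbedPowers
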