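import Pool.Agent.Helper91K1.WS.Final

/-!
# Waring's problem with shifts: `2 k + 1` terms for almost all shifts

The question Q1 is the bound `G(k) ≤ 2 k + 1`. In Waring's problem with shifts (Chow 2015, Biggs 2020) the
`k`-th powers `x ^ k` are replaced by the shifted powers `(x + θ_i) ^ k`, `θ_i` real, one shift for each
variable, and every large real number `τ` is to be approximated by their sums. The known theorems hold for
all shifts of which one is irrational and need many more variables (about `k ^ 2` for the asymptotic formula).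

Here it is proved that for almost all shifts `2 k + 1` variables suffice, the number of variables of Q1, for
every `k ≥ 2` (also for the powers of two): there is `c > 0`, which depends only on `k`, such that for almost
all `(θ_1, …, θ_{2k}) ∈ ℝ^{2k}` (Lebesgue measure) and all real `ψ`, every large real `τ` has

`|(x_1 + θ_1) ^ k + ⋯ + (x_{2k} + θ_{2k}) ^ k + (y + ψ) ^ k - τ| < τ ^ (-c)`

for some natural numbers `x_i`, `y` with `x_i + θ_i > 0`, `y + ψ > 0`. The last shift is arbitrary, for example
`ψ = 0`.

Proof. At the scale `P` the variables lie in `[P, 2P)` (the second one in `[P^(1-1/r), 2 P^(1-1/r))`, the first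
one in `[P, K P)`). (1) The mean over `θ_{s+1} ∈ [0,1)` of the additive energy of the sums of `s + 1` terms is
`≪ P E_s + P^{2s} P^{2-k} log P`, so `E_s ≤ P^{s+ε}` for `s ≤ k`, for almost all shifts. (2) The decisive step,
from `k` to `k + 1` terms, is a second moment with a kernel of integral zero: all long intervals contain many
sums (greedy algorithm with the first two variables), and all but `P^{k-1+ε}` of the short intervals contain a sum. (3) Each
further term divides the number of exceptional intervals by `P^{1-ε}`: if `m` is exceptional then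
`m - (x+θ)^k` is exceptional for all `x`, and for two different `x` this is a rare event for a random `θ`. After
`2 k` terms there remain `P^ε` exceptional intervals, and (4) the last term, with an arbitrary shift,
avoids them.

The pieces were written by helper28, helper37, helper59, helper61, helper87, helper91, helper95 and helper96.
-/

set_option autoImplicit false

namespace Pool.Agent.Results.MP_efcac8_nt.ShiftedPowers

open MeasureTheory Filter

/-- Let `k ≥ 2`. There is `c > 0` such that for almost all `θ ∈ ℝ ^ (2 k)` and all real `ψ` every sufficiently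
large real `τ` is at distance less than `τ ^ (-c)` from a sum of `2 k + 1` shifted `k`-th powers. -/
theorem result (k : ℕ) (hk : 2 ≤ k) :
    ∃ c : ℝ, 0 < c ∧ ∀ᵐ θ : Fin (2 * k) → ℝ, ∀ ψ : ℝ, ∃ T : ℝ, ∀ τ : ℝ, T ≤ τ →
      ∃ x : Fin (2 * k) → ℕ, ∃ y : ℕ, (∀ i, 0 < (x i : ℝ) + θ i) ∧ 0 < (y : ℝ) + ψ ∧
        |∑ i, ((x i : ℝ) + θ i) ^ k + ((y : ℝ) + ψ) ^ k - τ| < τ ^ (-c) := by
  rw [two_mul]
  obtain ⟨c, hc, h⟩ := Pool.Agent.Helper91K1.WS.shifted k hk
  refine ⟨c, hc, ?_⟩
  filter_upwards [h] with θ hθ ψ
  obtain ⟨C, hC⟩ := exists_nat_gt (∑ i, |θ i| + |ψ|)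
  obtain ⟨T, hT⟩ := hθ ψ C
  refine ⟨T, fun τ hτ => ?_⟩
  obtain ⟨x, y, hx, hy, hxy⟩ := hT τ hτ
  refine ⟨x, y, fun i => ?_, ?_, hxy⟩
  · have h1 : |θ i| ≤ ∑ i, |θ i| :=
      Finset.single_le_sum (f := fun i => |θ i|) (fun _ _ => abs_nonneg _) (Finset.mem_univ i)
    have h2 : (C : ℝ) ≤ x i := by exact_mod_cast hx i
    have h3 := neg_abs_le (θ i)
    have h4 := abs_nonneg ψ
    linarith
  · have h1 : 0 ≤ ∑ i, |θ i| := Finset.sum_nonneg fun _ _ => abs_nonneg _
    have h2 : (C : ℝ) ≤ y := by exact_mod_cast hy
    have h3 := neg_abs_le ψ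
    linarith

end Pool.Agent.Results.MP_efcac8_nt.ShiftedPowers
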